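import Pool.Agent.W910.FC.Collapse
import Pool.Agent.Q220.MH.CHHull

/-!
# Martin's axiom and monotone Borel hulls for the Lebesgue measurable sets

* Martin's axiom implies: there is a monotone Borel hull operation on the Lebesgue measurable sets
  if and only if the continuum hypothesis holds.
* There is a preordered set of forcing conditions which preserves `ω₁` and forces a sentence which
  expresses that Martin's axiom holds and the continuum is `ℵ₂`.

So ZFC together with Martin's axiom does not prove that there is a monotone Borel hull operation on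
the Lebesgue measurable sets.

The forcing language is the one of `Pool.Agent.Helper669.Forcing`: a sentence is the set of the
conditions which force it, `fnot`, `fand`, `fall` are the primitive connectives and `fimp`, `fex`
are defined from them classically; a name for a subset of a ground model set `X` is a map sending
`x : X` to a set of conditions, and `meets N` says that the generic filter meets `N`. The sentence
`MartinHolds P X` is the translation into the forcing language of the proposition `MartinFor X`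
(both are in `Pool.Agent.W684.FM.Defs`), which is Martin's axiom for preorders with underlying set
`X` and `X`-indexed families of dense sets; `ContinuumLe P Y` says that in the extension there is a
map from `Y` onto the set of all functions from the natural numbers to themselves.
-/

set_option autoImplicit false

namespace Pool.Agent.Results.MP_97b08f_lc.HullIffCH

open Cardinal MeasureTheory Pool.Agent.Helper669.Forcing Pool.Agent.W684.FM

/-- The countable chain condition: every set of pairwise incompatible conditions is countable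
(a smaller condition is stronger). -/
def IsCCC (P : Type) [Preorder P] : Prop :=
  ∀ A : Set P, (∀ p ∈ A, ∀ q ∈ A, p ≠ q → ¬ ∃ r : P, r ≤ p ∧ r ≤ q) → A.Countable

/-- Martin's axiom: for every nonempty preordered set `P` with the countable chain condition and
every family of fewer than `𝔠` dense subsets of `P` there is a filter in `P` which meets each of
them. -/
def MartinAxiom : Prop :=
  ∀ (P : Type) [Preorder P] [Nonempty P], IsCCC P →
    ∀ 𝒟 : Set (Set P), #𝒟 < 𝔠 → (∀ D ∈ 𝒟, ∀ p : P, ∃ q ∈ D, q ≤ p) →
      ∃ G : Set P, G.Nonempty ∧ (∀ p ∈ G, ∀ q : P, p ≤ q → q ∈ G) ∧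
        (∀ p ∈ G, ∀ q ∈ G, ∃ r ∈ G, r ≤ p ∧ r ≤ q) ∧ ∀ D ∈ 𝒟, (G ∩ D).Nonempty

/-- There is a monotone Borel hull operation on the Lebesgue measurable sets of reals (the sets
which are measurable for the completed measure). -/
def HasMonotoneBorelHull : Prop :=
  ∃ ψ : Set ℝ → Set ℝ,
    (∀ A, NullMeasurableSet A volume →
      MeasurableSet[borel ℝ] (ψ A) ∧ A ⊆ ψ A ∧ volume (ψ A \ A) = 0) ∧
    ∀ A B, NullMeasurableSet A volume → NullMeasurableSet B volume → A ⊆ B → ψ A ⊆ ψ B

/-- Martin's axiom implies that a monotone Borel hull operation on the Lebesgue measurable sets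
exists if and only if `𝔠 = ℵ₁`. The conjunction of the two sentences `MartinFor Om1` and
`there is a map from ℵ₂ onto the set of all functions from ℕ to ℕ` is equivalent to Martin's axiom
together with `𝔠 = ℵ₂`, and some preordered set of conditions preserves `ω₁` and forces (the
translations of) both of them. -/
theorem result :
    (MartinAxiom → (HasMonotoneBorelHull ↔ (𝔠 : Cardinal.{0}) = ℵ₁)) ∧
    ((MartinFor Om1 ∧ ∃ E : (ℵ_ 2 : Cardinal.{0}).out → ℕ → ℕ, Function.Surjective E) ↔
      (MartinAxiom ∧ (𝔠 : Cardinal.{0}) = ℵ_ 2)) ∧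
    (∃ (P : Type) (_ : Preorder P), Nonempty P ∧ ∀ p : P,
      p ∈ OmegaOnePreserved P ∧ p ∈ MartinHolds P Om1 ∧
        p ∈ ContinuumLe P (ℵ_ 2 : Cardinal.{0}).out) := by
  have hborel : (inferInstance : MeasurableSpace ℝ) = borel ℝ := BorelSpace.measurable_eq
  have hlt : (ℵ₁ : Cardinal.{0}) < ℵ_ 2 := Cardinal.aleph_lt_aleph.2 (by norm_num)
  have hle : ∀ κ : Cardinal.{0}, κ < ℵ_ 2 → κ ≤ ℵ₁ := fun κ h => by
    rw [← Pool.Agent.W910.Hull.succ_aleph1] at h
    exact Order.lt_succ_iff.1 h
  have hMA1 : MartinAxiom → (ℵ₁ : Cardinal.{0}) < 𝔠 → Pool.Agent.W684.MartinAxiomAleph1 :=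
    fun hMA h P _ _ hP 𝒟 h𝒟 hD => hMA P hP 𝒟 (h𝒟.trans_lt h) hD
  refine ⟨fun hMA => ⟨?_, fun hc => ?_⟩, ?_, Pool.Agent.W910.FC.exists_forcing⟩
  · rintro ⟨ψ, h1, h2⟩
    by_contra hne
    have hlt' : (ℵ₁ : Cardinal.{0}) < 𝔠 :=
      lt_of_le_of_ne Cardinal.aleph_one_le_continuum (Ne.symm hne)
    refine Pool.Agent.W910.Hull.no_hull (hMA1 hMA hlt') ψ (fun A hA => ?_) h2
    obtain ⟨h3, h4, h5⟩ := h1 A hA
    rw [← hborel] at h3
    exact ⟨h3, h4, h5⟩
  · obtain ⟨ψ, h1, h2⟩ := Pool.Agent.Q220.MH.hull_of_ch hc
    refine ⟨ψ, fun A hA => ?_, h2⟩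
    obtain ⟨h3, h4, h5⟩ := h1 A hA
    rw [← hborel]
    exact ⟨h3, h4, h5⟩
  · have h1 : #(ℕ → ℕ) = (𝔠 : Cardinal.{0}) := by
      simp
    have h2 : (∃ E : (ℵ_ 2 : Cardinal.{0}).out → ℕ → ℕ, Function.Surjective E) ↔
        (𝔠 : Cardinal.{0}) ≤ ℵ_ 2 := by
      constructor
      · rintro ⟨E, hE⟩
        have h2 := mk_le_of_surjective hE
        rwa [h1, mk_out] at h2
      · intro h
        rw [← h1, ← mk_out (ℵ_ 2)] at h
        obtain ⟨e⟩ := h
        exact ⟨Function.invFun e, Function.invFun_surjective e.injective⟩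
    rw [h2]
    constructor
    · rintro ⟨h3, h4⟩
      have h5 : Pool.Agent.W684.MartinAxiomAleph1 := martinFor_om1_iff.1 h3
      have h6 : (𝔠 : Cardinal.{0}) = ℵ_ 2 := by
        refine le_antisymm h4 ?_
        by_contra h7
        have h8 : #ℝ ≤ ℵ₁ := by
          rw [Cardinal.mk_real]
          exact hle _ (not_le.1 h7)
        have h9 := Pool.Agent.W910.Hull.null_iUnion h5 h8 (fun x : ℝ => {x}) fun x => by simp
        rw [Set.iUnion_of_singleton] at h9
        simp at h9
      refine ⟨fun P _ _ hP 𝒟 h𝒟 hD => h5 P hP 𝒟 (hle _ ?_) hD, h6⟩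
      rwa [h6] at h𝒟
    · rintro ⟨h3, h4⟩
      exact ⟨martinFor_om1_iff.2 (hMA1 h3 (by rw [h4]; exact hlt)), h4.le⟩

end Pool.Agent.Results.MP_97b08f_lc.HullIffCH
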